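import Pool.Agent.Lib.MP_d44404_lc.Main

namespace Pool.Agent.Results.MP_d44404_lc.HSCDecidable

open Pool.Agent.Lib.MP_d44404_lc

/-- The structural completion extends the system. -/
theorem completion_extends (S : DedSys) : S.completion.Extends S := by
  intro Γ φ h
  obtain ⟨Γ', h1, h2, h3⟩ := S.finitary Γ φ h
  refine ⟨Γ', h1, h2, fun σ hσ => ?_⟩
  refine S.cut _ _ _ ?_ (S.structural σ _ _ h3)
  rintro _ ⟨C, hC, rfl⟩
  exact hσ C hC

/-- The structural completion has the same theorems as the system. -/
theorem completion_theorems (S : DedSys) (φ : Fm) : S.completion.Der ∅ φ ↔ S.Der ∅ φ := by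
  constructor
  · rintro ⟨Γ', h1, -, h3⟩
    have h4 : Γ' = ∅ := Set.subset_empty_iff.1 h1
    subst h4
    have h5 := h3 Fm.var (by simp)
    rwa [Fm.subst_var_self] at h5
  · exact completion_extends S ∅ φ

/-- The structural completion is the largest deductive system with the same theorems. -/
theorem completion_largest (S T : DedSys) (h : ∀ φ, T.Der ∅ φ ↔ S.Der ∅ φ) :
    S.completion.Extends T := by
  intro Γ φ h0
  obtain ⟨Γ', h1, h2, h3⟩ := T.finitary Γ φ h0
  refine ⟨Γ', h1, h2, fun σ hσ => ?_⟩
  rw [← h]
  refine T.cut _ _ _ ?_ (T.structural σ _ _ h3)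
  rintro _ ⟨C, hC, rfl⟩
  exact (h _).2 (hσ C hC)

/-- There is an algorithm that decides, given the operation tables of a finite Heyting algebra,
whether the structural completion of the system of its logic with modus ponens is hereditarily
structurally complete. -/
theorem result : ∃ f : ℕ → Bool, Computable f ∧
    ∀ (α : Type) [HeytingAlgebra α] (n : ℕ) (e : α ≃ Fin n),
      (f (tableCode e) = true ↔
        (heytingSystem α).completion.HereditarilyStructurallyComplete) :=
  main

end Pool.Agent.Results.MP_d44404_lc.HSCDecidable
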